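import Mathlib

/-!
# The set-splitting game: player A has a winning strategy only if `E` is countable

Proof that A has no winning strategy on an uncountable set. Let `σ` be a strategy of A. Choose a map
`j` from `E` to `2 ^ ω` which is injective on an uncountable set `D`, and let B use only the
following splits: the `k`-th split of `T` puts a point `x` of `T` into the first part if the `k`-th
digit of `j x` is `1`, and into the second part otherwise. There are only countably many positions
which can be reached in this way. At each of them where B has to split a set `T`, there are at most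
countably many points `a` of `D ∩ T` such that for no `k` the two parts of `D ∩ T` are uncountable
and `σ` chooses the part with the point `a`: apart from the points which lie in a countable part of
`D ∩ T` for some `k` there is at most one, as two of them would have the same digits. So there is a
point `a` of `D` such that B can always pick the part which contains `a` and then find a split into
two uncountable sets for which `σ` chooses the part which contains `a`. So `a` is in the
intersection of the play.
-/

set_option autoImplicit false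

namespace Pool.Agent.Results.MP_053b7f_lc.OnlyCountable

universe u

variable {E : Type u}

/-- `X` and `Y` are disjoint sets with union `S`. -/
def Splits (S X Y : Set E) : Prop := X ∪ Y = S ∧ Disjoint X Y

/-- The moves of a round. The current set is `S_{2m}`. Player A splits it into `P` and `Q`, player B
chooses `T = S_{2m+1}` among `P`, `Q` and splits it into `U` and `V`, and player A chooses
`S = S_{2m+2}` among `U`, `V`. -/
structure Round (E : Type u) where
  P : Set E
  Q : Set E
  T : Set E
  U : Set E
  V : Set E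
  S : Set E

/-- The current set after the rounds in the list `l` (the last round is at the end of the list);
this is the whole set `E` if no round has been played. -/
def after (l : List (Round E)) : Set E :=
  match l.getLast? with
  | none => Set.univ
  | some r => r.S

/-- The first `m` rounds of an infinite sequence of rounds. -/
def hist (r : ℕ → Round E) (m : ℕ) : List (Round E) := (List.range m).map r

/-- The sequence `r` of rounds is a play of the game `G(E)`. -/
def IsPlay (r : ℕ → Round E) : Prop :=
  ∀ m, Splits (after (hist r m)) (r m).P (r m).Q ∧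
    ((r m).T = (r m).P ∨ (r m).T = (r m).Q) ∧
    Splits (r m).T (r m).U (r m).V ∧
    ((r m).S = (r m).U ∨ (r m).S = (r m).V)

/-- A strategy of player A. Given the list `l` of the rounds played so far, it splits the current
set, and given moreover the splitting `P`, `Q`, the set `T` chosen by B and its splitting `U`, `V`
by B, it chooses `U` or `V`. -/
structure Strategy (E : Type u) where
  split : List (Round E) → Set E × Set E
  choose : List (Round E) → Set E → Set E → Set E → Set E → Set E → Set E
  split_legal : ∀ l, Splits (after l) (split l).1 (split l).2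
  choose_legal : ∀ l P Q T U V, choose l P Q T U V = U ∨ choose l P Q T U V = V

/-- Player A follows the strategy `σ` in the sequence `r` of rounds. -/
def Follows (σ : Strategy E) (r : ℕ → Round E) : Prop :=
  ∀ m, ((r m).P, (r m).Q) = σ.split (hist r m) ∧
    (r m).S = σ.choose (hist r m) (r m).P (r m).Q (r m).T (r m).U (r m).V

/-- The strategy `σ` of A is winning: in each play in which A follows it, the intersection of the
sets `S_1 = (r 0).T`, `S_2 = (r 0).S`, `S_3 = (r 1).T`, `S_4 = (r 1).S`, ... is empty. -/
def Winning (σ : Strategy E) : Prop :=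
  ∀ r : ℕ → Round E, IsPlay r → Follows σ r → ⋂ m, ((r m).T ∩ (r m).S) = ∅

/-! ### Countable sets -/

lemma hist_length (r : ℕ → Round E) (m : ℕ) : (hist r m).length = m := by
  simp [hist]

open Classical in
/-- The strategy on a countable set. -/
noncomputable def countStrat (e : E → ℕ) : Strategy E where
  split l := (after l, ∅)
  choose l _ _ _ U V := if ∃ x ∈ U, e x = l.length then V else U
  split_legal l := by simp [Splits]
  choose_legal l P Q T U V := by
    by_cases h : ∃ x ∈ U, e x = l.length
    · right; rw [if_pos h]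
    · left; rw [if_neg h]

lemma exists_winning_of_countable [Countable E] : ∃ σ : Strategy E, Winning σ := by
  classical
  obtain ⟨e, he⟩ := exists_injective_nat E
  refine ⟨countStrat e, fun r hr hf => ?_⟩
  rw [Set.eq_empty_iff_forall_notMem]
  intro x hx
  rw [Set.mem_iInter] at hx
  have h1 := (hx (e x)).2
  have h2 := (hf (e x)).2
  obtain ⟨-, -, ⟨h3, h4⟩, -⟩ := hr (e x)
  rw [h2] at h1
  simp only [countStrat, hist_length] at h1
  by_cases h : ∃ y ∈ (r (e x)).U, e y = e x
  · rw [if_pos h] at h1
    obtain ⟨y, hy, hyx⟩ := h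
    rw [he hyx] at hy
    exact Set.disjoint_left.1 h4 hy h1
  · rw [if_neg h] at h1
    exact h ⟨x, h1, rfl⟩

/-! ### Uncountable sets -/

/-- The first part of the `k`-th split. -/
def dig (j : E → ℕ → Bool) (k : ℕ) : Set E := {x | j x k = true}

/-- The round in which A follows `σ` and B chooses the first part if `b` is true and the second
part otherwise, and then splits by the `k`-th digit. -/
def mkRound (σ : Strategy E) (j : E → ℕ → Bool) (l : List (Round E)) (b : Bool) (k : ℕ) :
    Round E where
  P := (σ.split l).1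
  Q := (σ.split l).2
  T := if b then (σ.split l).1 else (σ.split l).2
  U := (if b then (σ.split l).1 else (σ.split l).2) ∩ dig j k
  V := (if b then (σ.split l).1 else (σ.split l).2) \ dig j k
  S := σ.choose l (σ.split l).1 (σ.split l).2 (if b then (σ.split l).1 else (σ.split l).2)
    ((if b then (σ.split l).1 else (σ.split l).2) ∩ dig j k)
    ((if b then (σ.split l).1 else (σ.split l).2) \ dig j k)

/-- The position after the moves `u` of B. -/
def pos (σ : Strategy E) (j : E → ℕ → Bool) : List (Bool × ℕ) → List (Round E)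
  | [] => []
  | (b, k) :: u => pos σ j u ++ [mkRound σ j (pos σ j u) b k]

/-- Let `T` be the set which B has chosen after the rounds `l`. All but countably many points `a` of
`T ∩ D` have the property that there is a digit which splits `T ∩ D` into two uncountable sets and
for which `σ` chooses the part with the point `a`. -/
lemma exists_lost (σ : Strategy E) (j : E → ℕ → Bool) (D : Set E) (hj : Set.InjOn j D)
    (l : List (Round E)) (b : Bool) : ∃ C : Set E, C.Countable ∧
      ∀ a ∈ D, a ∉ C → (∀ k, a ∈ (mkRound σ j l b k).T) →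
        ∃ k, a ∈ (mkRound σ j l b k).S ∧ ¬ ((mkRound σ j l b k).U ∩ D).Countable ∧
          ¬ ((mkRound σ j l b k).V ∩ D).Countable := by
  obtain ⟨T, hT⟩ : ∃ T : Set E, T = if b then (σ.split l).1 else (σ.split l).2 := ⟨_, rfl⟩
  have hT' : ∀ k, (mkRound σ j l b k).T = T := fun k => hT.symm
  have hU : ∀ k, (mkRound σ j l b k).U = T ∩ dig j k := fun k => by rw [hT]; rfl
  have hV : ∀ k, (mkRound σ j l b k).V = T \ dig j k := fun k => by rw [hT]; rfl
  have hS : ∀ k, (mkRound σ j l b k).S = T ∩ dig j k ∨ (mkRound σ j l b k).S = T \ dig j k := by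
    intro k
    rw [← hU, ← hV]
    exact σ.choose_legal _ _ _ _ _ _
  obtain ⟨A, hA⟩ : ∃ A : Set E, A = ⋃ k : {k : ℕ // ((T ∩ dig j k) ∩ D).Countable},
      (T ∩ dig j k) ∩ D := ⟨_, rfl⟩
  obtain ⟨B, hB⟩ : ∃ B : Set E, B = ⋃ k : {k : ℕ // ((T \ dig j k) ∩ D).Countable},
      (T \ dig j k) ∩ D := ⟨_, rfl⟩
  obtain ⟨R, hR⟩ : ∃ R : Set E, R = {x | x ∈ T ∧ x ∈ D ∧ x ∉ A ∧ x ∉ B ∧
      ∀ k, ¬ ((T ∩ dig j k) ∩ D).Countable → ¬ ((T \ dig j k) ∩ D).Countable →
        x ∉ (mkRound σ j l b k).S} := ⟨_, rfl⟩
  have hAc : A.Countable := by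
    rw [hA]
    exact Set.countable_iUnion fun k => k.2
  have hBc : B.Countable := by
    rw [hB]
    exact Set.countable_iUnion fun k => k.2
  have hRs : R.Subsingleton := by
    intro x hx y hy
    rw [hR] at hx hy
    obtain ⟨hxT, hxD, hxA, hxB, hx⟩ := hx
    obtain ⟨hyT, hyD, hyA, hyB, hy⟩ := hy
    apply hj hxD hyD
    funext k
    by_cases h1 : ((T ∩ dig j k) ∩ D).Countable
    · have h2 : ∀ z ∈ T, z ∈ D → z ∉ A → j z k = false := by
        intro z hz hzD hzA
        rw [Bool.eq_false_iff]
        intro h0
        apply hzA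
        rw [hA]
        exact Set.mem_iUnion.2 ⟨⟨k, h1⟩, ⟨hz, h0⟩, hzD⟩
      rw [h2 x hxT hxD hxA, h2 y hyT hyD hyA]
    by_cases h1' : ((T \ dig j k) ∩ D).Countable
    · have h2 : ∀ z ∈ T, z ∈ D → z ∉ B → j z k = true := by
        intro z hz hzD hzB
        by_contra h0
        apply hzB
        rw [hB]
        exact Set.mem_iUnion.2 ⟨⟨k, h1'⟩, ⟨hz, h0⟩, hzD⟩
      rw [h2 x hxT hxD hxB, h2 y hyT hyD hyB]
    have hx' := hx k h1 h1'
    have hy' := hy k h1 h1'
    rcases hS k with h | h
    · rw [h] at hx' hy'
      have e1 : j x k = false := Bool.eq_false_iff.2 fun h0 => hx' ⟨hxT, h0⟩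
      have e2 : j y k = false := Bool.eq_false_iff.2 fun h0 => hy' ⟨hyT, h0⟩
      rw [e1, e2]
    · rw [h] at hx' hy'
      have e1 : j x k = true := by
        by_contra h0
        exact hx' ⟨hxT, h0⟩
      have e2 : j y k = true := by
        by_contra h0
        exact hy' ⟨hyT, h0⟩
      rw [e1, e2]
  refine ⟨A ∪ B ∪ R, (hAc.union hBc).union hRs.countable, fun a haD ha haT => ?_⟩
  have haT' : a ∈ T := by
    have := haT 0
    rwa [hT'] at this
  have h1 : a ∉ A := fun h => ha (Or.inl (Or.inl h))
  have h2 : a ∉ B := fun h => ha (Or.inl (Or.inr h))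
  have h3 : a ∉ R := fun h => ha (Or.inr h)
  by_contra hcon
  apply h3
  rw [hR]
  refine ⟨haT', haD, h1, h2, fun k hk1 hk2 hk3 => hcon ⟨k, hk3, ?_, ?_⟩⟩
  · rw [hU]; exact hk1
  · rw [hV]; exact hk2

lemma after_append (l : List (Round E)) (r : Round E) : after (l ++ [r]) = r.S := by
  simp [after]

lemma pos_cons (σ : Strategy E) (j : E → ℕ → Bool) (p : Bool × ℕ) (u : List (Bool × ℕ)) :
    pos σ j (p :: u) = pos σ j u ++ [mkRound σ j (pos σ j u) p.1 p.2] := rfl

/-- The moves of B, the last move first. -/
def nxt (f : List (Bool × ℕ) → Bool × ℕ) : ℕ → List (Bool × ℕ)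
  | 0 => []
  | m + 1 => f (nxt f m) :: nxt f m

/-- The play in which B's moves are given by `f`. -/
def play (σ : Strategy E) (j : E → ℕ → Bool) (f : List (Bool × ℕ) → Bool × ℕ) (m : ℕ) : Round E :=
  mkRound σ j (pos σ j (nxt f m)) (f (nxt f m)).1 (f (nxt f m)).2

lemma hist_succ (r : ℕ → Round E) (m : ℕ) : hist r (m + 1) = hist r m ++ [r m] := by
  simp [hist, List.range_succ]

lemma hist_play (σ : Strategy E) (j : E → ℕ → Bool) (f : List (Bool × ℕ) → Bool × ℕ) (m : ℕ) :
    hist (play σ j f) m = pos σ j (nxt f m) := by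
  induction m with
  | zero => simp [hist, nxt, pos]
  | succ m ih =>
    rw [hist_succ, ih]
    exact (pos_cons σ j _ _).symm

lemma isPlay_play (σ : Strategy E) (j : E → ℕ → Bool) (f : List (Bool × ℕ) → Bool × ℕ) :
    IsPlay (play σ j f) := by
  intro m
  rw [hist_play]
  refine ⟨σ.split_legal _, ?_, ?_, ?_⟩
  · unfold play mkRound
    cases (f (nxt f m)).1
    · right; rfl
    · left; rfl
  · exact ⟨Set.inter_union_sdiff _ _, Set.disjoint_sdiff_inter.symm⟩
  · exact σ.choose_legal _ _ _ _ _ _

lemma follows_play (σ : Strategy E) (j : E → ℕ → Bool) (f : List (Bool × ℕ) → Bool × ℕ) :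
    Follows σ (play σ j f) := by
  intro m
  rw [hist_play]
  exact ⟨rfl, rfl⟩

/-- B can keep all but countably many points of `D` in a round. -/
lemma exists_step (σ : Strategy E) (j : E → ℕ → Bool) (D : Set E) (hj : Set.InjOn j D)
    (l : List (Round E)) : ∃ C : Set E, C.Countable ∧
      ∀ a ∈ D, a ∉ C → a ∈ after l → ∃ p : Bool × ℕ,
        a ∈ (mkRound σ j l p.1 p.2).T ∧ a ∈ (mkRound σ j l p.1 p.2).S ∧
        ¬ (mkRound σ j l p.1 p.2).U.Countable ∧ ¬ (mkRound σ j l p.1 p.2).V.Countable := by
  obtain ⟨C₁, h1, h1'⟩ := exists_lost σ j D hj l true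
  obtain ⟨C₂, h2, h2'⟩ := exists_lost σ j D hj l false
  refine ⟨C₁ ∪ C₂, h1.union h2, fun a haD haC hal => ?_⟩
  have hmem : a ∈ (σ.split l).1 ∪ (σ.split l).2 := by
    rw [(σ.split_legal l).1]
    exact hal
  rcases hmem with h | h
  · obtain ⟨k, hk, hkU, hkV⟩ := h1' a haD (fun h => haC (Or.inl h)) (fun k => h)
    exact ⟨(true, k), h, hk, fun hc => hkU (hc.mono Set.inter_subset_left),
      fun hc => hkV (hc.mono Set.inter_subset_left)⟩
  · obtain ⟨k, hk, hkU, hkV⟩ := h2' a haD (fun h => haC (Or.inr h)) (fun k => h)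
    exact ⟨(false, k), h, hk, fun hc => hkU (hc.mono Set.inter_subset_left),
      fun hc => hkV (hc.mono Set.inter_subset_left)⟩

/-- Against each strategy of A there is a play with a nonempty intersection. -/
lemma exists_play (σ : Strategy E) (j : E → ℕ → Bool) (D : Set E) (hj : Set.InjOn j D)
    (hD : ¬ D.Countable) : ∃ r : ℕ → Round E, IsPlay r ∧ Follows σ r ∧
      (∀ m, ¬ (r m).U.Countable ∧ ¬ (r m).V.Countable) ∧
      (⋂ m, ((r m).T ∩ (r m).S)).Nonempty := by
  classical
  choose C hC hC' using exists_step σ j D hj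
  obtain ⟨a, haD, ha⟩ : ∃ a ∈ D, ∀ u, a ∉ C (pos σ j u) := by
    by_contra hcon
    push Not at hcon
    apply hD
    have hsub : D ⊆ ⋃ u : List (Bool × ℕ), C (pos σ j u) := by
      intro a haD
      obtain ⟨u, h⟩ := hcon a haD
      exact Set.mem_iUnion.2 ⟨u, h⟩
    exact (Set.countable_iUnion fun u => hC _).mono hsub
  have hstep : ∀ u : List (Bool × ℕ), ∃ p : Bool × ℕ, a ∈ after (pos σ j u) →
      a ∈ (mkRound σ j (pos σ j u) p.1 p.2).T ∧ a ∈ (mkRound σ j (pos σ j u) p.1 p.2).S ∧
        ¬ (mkRound σ j (pos σ j u) p.1 p.2).U.Countable ∧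
        ¬ (mkRound σ j (pos σ j u) p.1 p.2).V.Countable := by
    intro u
    by_cases hu : a ∈ after (pos σ j u)
    · obtain ⟨p, hp⟩ := hC' (pos σ j u) a haD (ha u) hu
      exact ⟨p, fun _ => hp⟩
    · exact ⟨(true, 0), fun h => absurd h hu⟩
  choose f hf using hstep
  have hs : ∀ m, a ∈ after (pos σ j (nxt f m)) := by
    intro m
    induction m with
    | zero => exact Set.mem_univ a
    | succ m ih =>
      have h5 : pos σ j (nxt f (m + 1)) = pos σ j (nxt f m) ++ [play σ j f m] := rfl
      rw [h5, after_append]
      exact (hf _ ih).2.1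
  refine ⟨play σ j f, isPlay_play σ j f, follows_play σ j f, fun m => (hf _ (hs m)).2.2, a, ?_⟩
  rw [Set.mem_iInter]
  intro m
  exact ⟨(hf _ (hs m)).1, (hf _ (hs m)).2.1⟩

/-- Every uncountable type has an uncountable subset which embeds into `2 ^ ω`. -/
lemma exists_embedding (hE : ¬ Countable E) :
    ∃ (j : E → ℕ → Bool) (D : Set E), Set.InjOn j D ∧ ¬ D.Countable := by
  classical
  have h1 : Cardinal.aleph 1 ≤ Cardinal.mk E := by
    rw [← Cardinal.succ_aleph0, Order.succ_le_iff]
    by_contra h
    exact hE (Cardinal.mk_le_aleph0_iff.1 (not_lt.1 h))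
  obtain ⟨D, hD⟩ := Cardinal.le_mk_iff_exists_set.1 h1
  have h2 : Cardinal.lift.{0} (Cardinal.mk D) ≤ Cardinal.lift.{u} (Cardinal.mk (ℕ → Bool)) := by
    rw [hD]
    simp only [Cardinal.mk_pi, Cardinal.mk_bool, Cardinal.prod_const, Cardinal.lift_id,
      Cardinal.mk_nat]
    rw [Cardinal.lift_power]
    simpa using Cardinal.aleph_one_le_continuum.{u}
  obtain ⟨i⟩ := Cardinal.lift_mk_le'.1 h2
  refine ⟨fun x => if h : x ∈ D then i ⟨x, h⟩ else fun _ => false, D, ?_, ?_⟩
  · intro x hx y hy hxy
    simp only [hx, hy, dif_pos] at hxy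
    exact congrArg Subtype.val (i.injective hxy)
  · intro hc
    have := Cardinal.mk_le_aleph0_iff.2 hc.to_subtype
    rw [hD] at this
    exact absurd this (not_le.2 Cardinal.aleph0_lt_aleph_one)

/-- **Player A has a winning strategy in the game `G(E)` if and only if `E` is countable.** Moreover,
if `E` is uncountable, then for each strategy of A there is a play in which A follows it and B
always splits into two uncountable sets, such that the intersection is not empty. -/
theorem result (E : Type u) : ((∃ σ : Strategy E, Winning σ) ↔ Countable E) ∧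
    (¬ Countable E → ∀ σ : Strategy E, ∃ r : ℕ → Round E, IsPlay r ∧ Follows σ r ∧
      (∀ m, ¬ (r m).U.Countable ∧ ¬ (r m).V.Countable) ∧
      (⋂ m, ((r m).T ∩ (r m).S)).Nonempty) := by
  have h2 : ¬ Countable E → ∀ σ : Strategy E, ∃ r : ℕ → Round E, IsPlay r ∧ Follows σ r ∧
      (∀ m, ¬ (r m).U.Countable ∧ ¬ (r m).V.Countable) ∧
      (⋂ m, ((r m).T ∩ (r m).S)).Nonempty := by
    intro hE σ
    obtain ⟨j, D, hj, hD⟩ := exists_embedding hE
    exact exists_play σ j D hj hD
  refine ⟨⟨?_, ?_⟩, h2⟩
  · rintro ⟨σ, hσ⟩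
    by_contra hE
    obtain ⟨r, hr, hf, -, hne⟩ := h2 hE σ
    rw [hσ r hr hf] at hne
    exact Set.not_nonempty_empty hne
  · intro h
    exact exists_winning_of_countable

end Pool.Agent.Results.MP_053b7f_lc.OnlyCountable
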